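import Mathlib

set_option autoImplicit false

/-!
Unit representation of a strongly ordered bipartite graph with interval fans.
-/

namespace Pool.Agent.Helper1.Lev

/-- A solution for the bundle `(P, Q, R)`. -/
def Sol (P Q : Finset ℕ) (R : ℕ → ℕ → Prop) : Prop :=
  ∃ a b : ℕ → ℝ,
    (∀ p ∈ P, ∀ p' ∈ P, p < p' → a p < a p') ∧
    (∀ q ∈ Q, ∀ q' ∈ Q, q < q' → b q < b q') ∧
    (∀ p ∈ P, ∀ q ∈ Q, R p q → |a p - b q| < 1) ∧
    (∀ p ∈ P, ∀ q ∈ Q, ¬ R p q → 1 < |a p - b q|)

theorem Sol.symm {P Q : Finset ℕ} {R : ℕ → ℕ → Prop} (h : Sol P Q R) :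
    Sol Q P (fun q p => R p q) := by
  obtain ⟨a, b, h1, h2, h3, h4⟩ := h
  refine ⟨b, a, h2, h1, ?_, ?_⟩
  · intro q hq p hp hr
    rw [abs_sub_comm]
    exact h3 p hp q hq hr
  · intro q hq p hp hr
    rw [abs_sub_comm]
    exact h4 p hp q hq hr

theorem exists_between_finset (S : Finset ℝ) (B : ℝ) (h : ∀ y ∈ S, y < B) :
    ∃ x, x < B ∧ ∀ y ∈ S, y < x := by
  classical
  have hne : (insert (B - 1) S).Nonempty := ⟨B - 1, Finset.mem_insert_self _ _⟩
  have hlt : (insert (B - 1) S).max' hne < B := by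
    have hm := Finset.max'_mem (insert (B - 1) S) hne
    rcases Finset.mem_insert.1 hm with h1 | h1
    · rw [h1]; linarith
    · exact h _ h1
  refine ⟨((insert (B - 1) S).max' hne + B) / 2, by linarith, ?_⟩
  intro y hy
  have := Finset.le_max' (insert (B - 1) S) y (Finset.mem_insert_of_mem hy)
  linarith

theorem exists_bound (P : Finset ℕ) (a : ℕ → ℝ) : ∃ M, ∀ p ∈ P, a p ≤ M := by
  obtain ⟨M, hM⟩ := (P.image a).exists_le
  exact ⟨M, fun p hp => hM _ (Finset.mem_image_of_mem _ hp)⟩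

/-- remove the last element `ps` of `P`, which is adjacent to the last element `qs` of `Q`;
`qs` has another neighbour -/
theorem stepB (P Q : Finset ℕ) (R : ℕ → ℕ → Prop)
    (IH : ∀ P' Q' : Finset ℕ, P' ⊆ P → Q' ⊆ Q → P'.card + Q'.card < P.card + Q.card →
      Sol P' Q' R)
    (hS : ∀ p ∈ P, ∀ p' ∈ P, ∀ q ∈ Q, ∀ q' ∈ Q, p < p' → q < q' → R p q' → R p' q →
      R p q ∧ R p' q')
    (hI : ∀ q ∈ Q, ∀ p ∈ P, ∀ p' ∈ P, ∀ p'' ∈ P, p < p' → p' < p'' → R p q → R p'' q → R p' q)
    (hI2 : ∀ p ∈ P, ∀ q ∈ Q, ∀ q' ∈ Q, ∀ q'' ∈ Q, q < q' → q' < q'' → R p q → R p q'' →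
      R p q')
    (ps qs : ℕ) (hps : ps ∈ P) (hqs : qs ∈ Q) (hpm : ∀ p ∈ P, p ≤ ps) (hqm : ∀ q ∈ Q, q ≤ qs)
    (h1 : R ps qs) (h2 : ∃ p ∈ P, p ≠ ps ∧ R p qs) : Sol P Q R := by
  classical
  have hcP : (P.erase ps).card + 1 = P.card := Finset.card_erase_add_one hps
  have hlt : ∀ p ∈ P, p ≠ ps → p < ps := fun p hp hne => lt_of_le_of_ne (hpm p hp) hne
  -- first neighbour of `ps`
  have hne : (Q.filter (fun q => R ps q)).Nonempty := ⟨qs, Finset.mem_filter.2 ⟨hqs, h1⟩⟩
  obtain ⟨qk, hqk, hqkr, hqkm⟩ : ∃ qk ∈ Q, R ps qk ∧ ∀ q ∈ Q, R ps q → qk ≤ q := by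
    refine ⟨(Q.filter (fun q => R ps q)).min' hne, ?_, ?_, ?_⟩
    · exact (Finset.mem_filter.1 (Finset.min'_mem _ hne)).1
    · exact (Finset.mem_filter.1 (Finset.min'_mem _ hne)).2
    · intro q hq hr
      exact Finset.min'_le _ _ (Finset.mem_filter.2 ⟨hq, hr⟩)
  obtain ⟨a, b, ha, hb, he, hn⟩ := IH (P.erase ps) Q (Finset.erase_subset _ _)
    (Finset.Subset.refl _) (by omega)
  obtain ⟨p0, hp0, hp0s, hr0⟩ := h2
  have hbm : ∀ q ∈ Q, ∀ q' ∈ Q, q ≤ q' → b q ≤ b q' := by
    intro q hq q' hq' hqq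
    rcases eq_or_lt_of_le hqq with e | e
    · rw [e]
    · exact (hb q hq q' hq' e).le
  -- neighbours of `qs` are neighbours of `qk`
  have hk : ∀ p ∈ P, p ≠ ps → R p qs → R p qk := by
    intro p hp hne hr
    rcases eq_or_lt_of_le (hqm qk hqk) with e | e
    · rw [e]; exact hr
    · exact (hS p hp ps hps qk hqk qs hqs (hlt p hp hne) e hr hqkr).1
  have hkk : ∀ p ∈ P, p ≠ ps → R p qs → a p < b qk + 1 ∧ b qs < a p + 1 := by
    intro p hp hne hr
    have e2 := he p (Finset.mem_erase.2 ⟨hne, hp⟩) qk hqk (hk p hp hne hr)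
    have e3 := he p (Finset.mem_erase.2 ⟨hne, hp⟩) qs hqs hr
    have e4 := (abs_lt.1 e2).2
    have e5 := (abs_lt.1 e3).1
    constructor <;> linarith
  have hup : ∀ p ∈ P, p ≠ ps → a p < b qk + 1 := by
    intro p hp hne
    rcases lt_trichotomy p p0 with hlt' | heq | hgt
    · have e1 := ha p (Finset.mem_erase.2 ⟨hne, hp⟩) p0 (Finset.mem_erase.2 ⟨hp0s, hp0⟩) hlt'
      have e2 := (hkk p0 hp0 hp0s hr0).1
      linarith
    · subst heq
      exact (hkk p hp0 hp0s hr0).1
    · have hr : R p qs := hI qs hqs p0 hp0 p hp ps hps hgt (hlt p hp hne) hr0 h1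
      exact (hkk p hp hne hr).1
  obtain ⟨x, hxB, hx⟩ := exists_between_finset
    (insert (b qs - 1) (((P.erase ps).image a) ∪ ((Q.filter (fun q => q < qk)).image
      (fun q => b q + 1))))
    (b qk + 1) (by
      intro y hy
      rcases Finset.mem_insert.1 hy with e | e
      · rw [e]
        have := hkk p0 hp0 hp0s hr0
        linarith [this.1, this.2]
      · rcases Finset.mem_union.1 e with e | e
        · obtain ⟨p, hp, rfl⟩ := Finset.mem_image.1 e
          exact hup p (Finset.mem_erase.1 hp).2 (Finset.mem_erase.1 hp).1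
        · obtain ⟨q, hq, rfl⟩ := Finset.mem_image.1 e
          have := hb q (Finset.mem_filter.1 hq).1 qk hqk (Finset.mem_filter.1 hq).2
          linarith)
  have hx1 : b qs - 1 < x := hx _ (Finset.mem_insert_self _ _)
  have hx2 : ∀ p ∈ P, p ≠ ps → a p < x := fun p hp hne =>
    hx _ (Finset.mem_insert_of_mem (Finset.mem_union_left _
      (Finset.mem_image_of_mem _ (Finset.mem_erase.2 ⟨hne, hp⟩))))
  have hx3 : ∀ q ∈ Q, q < qk → b q + 1 < x := fun q hq hlt =>
    hx _ (Finset.mem_insert_of_mem (Finset.mem_union_right _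
      (Finset.mem_image.2 ⟨q, Finset.mem_filter.2 ⟨hq, hlt⟩, rfl⟩)))
  refine ⟨Function.update a ps x, b, ?_, hb, ?_, ?_⟩
  · intro p hp p' hp' hpp
    have hne : p ≠ ps := fun e => absurd (hpm p' hp') (by omega)
    rw [Function.update_of_ne hne]
    by_cases hp's : p' = ps
    · subst hp's
      rw [Function.update_self]
      exact hx2 p hp hne
    · rw [Function.update_of_ne hp's]
      exact ha p (Finset.mem_erase.2 ⟨hne, hp⟩) p' (Finset.mem_erase.2 ⟨hp's, hp'⟩) hpp
  · intro p hp q hq hr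
    by_cases hpe : p = ps
    · subst hpe
      rw [Function.update_self, abs_lt]
      have e1 := hbm qk hqk q hq (hqkm q hq hr)
      have e2 := hbm q hq qs hqs (hqm q hq)
      constructor <;> linarith
    · rw [Function.update_of_ne hpe]
      exact he p (Finset.mem_erase.2 ⟨hpe, hp⟩) q hq hr
  · intro p hp q hq hr
    by_cases hpe : p = ps
    · subst hpe
      rw [Function.update_self]
      have hqn : q < qk := by
        by_contra hcon
        push Not at hcon
        apply hr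
        rcases eq_or_lt_of_le hcon with e | e
        · rw [← e]; exact hqkr
        · rcases eq_or_lt_of_le (hqm q hq) with e' | e'
          · rw [e']; exact h1
          · exact hI2 p hps qk hqk q hq qs hqs e e' hqkr h1
      have := hx3 q hq hqn
      rw [lt_abs]
      left; linarith
    · rw [Function.update_of_ne hpe]
      exact hn p (Finset.mem_erase.2 ⟨hpe, hp⟩) q hq hr

/-- remove the isolated last element `ps` of `P` -/
theorem stepA (P Q : Finset ℕ) (R : ℕ → ℕ → Prop)
    (IH : ∀ P' Q' : Finset ℕ, P' ⊆ P → Q' ⊆ Q → P'.card + Q'.card < P.card + Q.card →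
      Sol P' Q' R)
    (ps : ℕ) (hps : ps ∈ P) (hpm : ∀ p ∈ P, p ≤ ps)
    (h : ∀ q ∈ Q, ¬ R ps q) : Sol P Q R := by
  classical
  have hcP : (P.erase ps).card + 1 = P.card := Finset.card_erase_add_one hps
  obtain ⟨a, b, ha, hb, he, hn⟩ := IH (P.erase ps) Q (Finset.erase_subset _ _)
    (Finset.Subset.refl _) (by omega)
  obtain ⟨M1, hM1⟩ := exists_bound P a
  obtain ⟨M2, hM2⟩ := exists_bound Q b
  have hM1' : ∀ p ∈ P, a p ≤ max M1 M2 := fun p hp => (hM1 p hp).trans (le_max_left _ _)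
  have hM2' : ∀ q ∈ Q, b q ≤ max M1 M2 := fun q hq => (hM2 q hq).trans (le_max_right _ _)
  refine ⟨Function.update a ps (max M1 M2 + 2), b, ?_, hb, ?_, ?_⟩
  · intro p hp p' hp' hpp
    have hne : p ≠ ps := fun e => absurd (hpm p' hp') (by omega)
    rw [Function.update_of_ne hne]
    by_cases hp's : p' = ps
    · subst hp's
      rw [Function.update_self]
      have := hM1' p hp
      linarith
    · rw [Function.update_of_ne hp's]
      exact ha p (Finset.mem_erase.2 ⟨hne, hp⟩) p' (Finset.mem_erase.2 ⟨hp's, hp'⟩) hpp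
  · intro p hp q hq hr
    by_cases hpe : p = ps
    · subst hpe
      exact absurd hr (h q hq)
    · rw [Function.update_of_ne hpe]
      exact he p (Finset.mem_erase.2 ⟨hpe, hp⟩) q hq hr
  · intro p hp q hq hr
    by_cases hpe : p = ps
    · subst hpe
      rw [Function.update_self, lt_abs]
      have := hM2' q hq
      left; linarith
    · rw [Function.update_of_ne hpe]
      exact hn p (Finset.mem_erase.2 ⟨hpe, hp⟩) q hq hr

/-- remove two last elements which are adjacent to each other only -/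
theorem stepC (P Q : Finset ℕ) (R : ℕ → ℕ → Prop)
    (IH : ∀ P' Q' : Finset ℕ, P' ⊆ P → Q' ⊆ Q → P'.card + Q'.card < P.card + Q.card →
      Sol P' Q' R)
    (ps qs : ℕ) (hps : ps ∈ P) (hqs : qs ∈ Q) (hpm : ∀ p ∈ P, p ≤ ps) (hqm : ∀ q ∈ Q, q ≤ qs)
    (h1 : R ps qs) (h : ∀ q ∈ Q, R ps q → q = qs) (h' : ∀ p ∈ P, R p qs → p = ps) :
    Sol P Q R := by
  classical
  have hcP : (P.erase ps).card + 1 = P.card := Finset.card_erase_add_one hps
  have hcQ : (Q.erase qs).card + 1 = Q.card := Finset.card_erase_add_one hqs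
  obtain ⟨a, b, ha, hb, he, hn⟩ := IH (P.erase ps) (Q.erase qs) (Finset.erase_subset _ _)
    (Finset.erase_subset _ _) (by omega)
  obtain ⟨M1, hM1⟩ := exists_bound P a
  obtain ⟨M2, hM2⟩ := exists_bound Q b
  have hM1' : ∀ p ∈ P, a p ≤ max M1 M2 := fun p hp => (hM1 p hp).trans (le_max_left _ _)
  have hM2' : ∀ q ∈ Q, b q ≤ max M1 M2 := fun q hq => (hM2 q hq).trans (le_max_right _ _)
  refine ⟨Function.update a ps (max M1 M2 + 5 / 2), Function.update b qs (max M1 M2 + 2),
    ?_, ?_, ?_, ?_⟩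
  · intro p hp p' hp' hpp
    have hne : p ≠ ps := fun e => absurd (hpm p' hp') (by omega)
    rw [Function.update_of_ne hne]
    by_cases hp's : p' = ps
    · subst hp's
      rw [Function.update_self]
      have := hM1' p hp
      linarith
    · rw [Function.update_of_ne hp's]
      exact ha p (Finset.mem_erase.2 ⟨hne, hp⟩) p' (Finset.mem_erase.2 ⟨hp's, hp'⟩) hpp
  · intro p hp p' hp' hpp
    have hne : p ≠ qs := fun e => absurd (hqm p' hp') (by omega)
    rw [Function.update_of_ne hne]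
    by_cases hp's : p' = qs
    · subst hp's
      rw [Function.update_self]
      have := hM2' p hp
      linarith
    · rw [Function.update_of_ne hp's]
      exact hb p (Finset.mem_erase.2 ⟨hne, hp⟩) p' (Finset.mem_erase.2 ⟨hp's, hp'⟩) hpp
  · intro p hp q hq hr
    by_cases hpe : p = ps
    · subst hpe
      rw [Function.update_self]
      have := h q hq hr
      subst this
      rw [Function.update_self, abs_lt]
      constructor <;> linarith
    · rw [Function.update_of_ne hpe]
      have hqn : q ≠ qs := fun e => hpe (h' p hp (by rw [← e]; exact hr))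
      rw [Function.update_of_ne hqn]
      exact he p (Finset.mem_erase.2 ⟨hpe, hp⟩) q (Finset.mem_erase.2 ⟨hqn, hq⟩) hr
  · intro p hp q hq hr
    by_cases hpe : p = ps
    · subst hpe
      rw [Function.update_self]
      have hqn : q ≠ qs := fun e => hr (by rw [e]; exact h1)
      rw [Function.update_of_ne hqn, lt_abs]
      have := hM2' q hq
      left; linarith
    · rw [Function.update_of_ne hpe]
      by_cases hqe : q = qs
      · subst hqe
        rw [Function.update_self, lt_abs]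
        have := hM1' p hp
        right; linarith
      · rw [Function.update_of_ne hqe]
        exact hn p (Finset.mem_erase.2 ⟨hpe, hp⟩) q (Finset.mem_erase.2 ⟨hqe, hq⟩) hr

/-- The unit lemma: a bipartite graph with linear orders on both sides that is strongly ordered
(`p < p'`, `q < q'`, `p ~ q'`, `p' ~ q` imply `p ~ q` and `p' ~ q'`) and in which all
neighbourhoods are intervals has a unit representation with strictly increasing functions. -/
theorem unit_sol (n : ℕ) : ∀ (P Q : Finset ℕ) (R : ℕ → ℕ → Prop), P.card + Q.card = n →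
    (∀ p ∈ P, ∀ p' ∈ P, ∀ q ∈ Q, ∀ q' ∈ Q, p < p' → q < q' → R p q' → R p' q →
      R p q ∧ R p' q') →
    (∀ q ∈ Q, ∀ p ∈ P, ∀ p' ∈ P, ∀ p'' ∈ P, p < p' → p' < p'' → R p q → R p'' q → R p' q) →
    (∀ p ∈ P, ∀ q ∈ Q, ∀ q' ∈ Q, ∀ q'' ∈ Q, q < q' → q' < q'' → R p q → R p q'' → R p q') →
    Sol P Q R := by
  classical
  induction n using Nat.strong_induction_on with
  | _ n ih =>
    intro P Q R hn hS hI1 hI2
    have IH : ∀ P' Q' : Finset ℕ, P' ⊆ P → Q' ⊆ Q → P'.card + Q'.card < P.card + Q.card →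
        Sol P' Q' R := by
      intro P' Q' hP hQ hc
      refine ih (P'.card + Q'.card) (by omega) P' Q' R rfl ?_ ?_ ?_
      · intro p hp p' hp' q hq q' hq'
        exact hS p (hP hp) p' (hP hp') q (hQ hq) q' (hQ hq')
      · intro q hq p hp p' hp' p'' hp''
        exact hI1 q (hQ hq) p (hP hp) p' (hP hp') p'' (hP hp'')
      · intro p hp q hq q' hq' q'' hq''
        exact hI2 p (hP hp) q (hQ hq) q' (hQ hq') q'' (hQ hq'')
    have IH' : ∀ Q' P' : Finset ℕ, Q' ⊆ Q → P' ⊆ P → Q'.card + P'.card < Q.card + P.card →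
        Sol Q' P' (fun q p => R p q) := fun P' Q' h1 h2 h3 => (IH Q' P' h2 h1 (by omega)).symm
    rcases P.eq_empty_or_nonempty with hP | hP
    · subst hP
      refine ⟨fun _ => 0, fun q => (q : ℝ), ?_, ?_, ?_, ?_⟩
      · intro p hp; simp at hp
      · intro q _ q' _ hqq
        show (q : ℝ) < (q' : ℝ)
        exact_mod_cast hqq
      · intro p hp; simp at hp
      · intro p hp; simp at hp
    rcases Q.eq_empty_or_nonempty with hQ | hQ
    · subst hQ
      refine ⟨fun q => (q : ℝ), fun _ => 0, ?_, ?_, ?_, ?_⟩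
      · intro q _ q' _ hqq
        show (q : ℝ) < (q' : ℝ)
        exact_mod_cast hqq
      · intro p hp; simp at hp
      · intro p _ q hp; simp at hp
      · intro p _ q hp; simp at hp
    have hps := P.max'_mem hP
    have hqs := Q.max'_mem hQ
    have hpm : ∀ p ∈ P, p ≤ P.max' hP := fun p hp => P.le_max' p hp
    have hqm : ∀ q ∈ Q, q ≤ Q.max' hQ := fun q hq => Q.le_max' q hq
    by_cases hr : R (P.max' hP) (Q.max' hQ)
    · by_cases h2 : ∃ p ∈ P, p ≠ P.max' hP ∧ R p (Q.max' hQ)
      · exact stepB P Q R IH hS hI1 hI2 _ _ hps hqs hpm hqm hr h2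
      · by_cases h3 : ∃ q ∈ Q, q ≠ Q.max' hQ ∧ R (P.max' hP) q
        · have := stepB Q P (fun q p => R p q) IH'
            (fun q hq q' hq' p hp p' hp' hqq hpp e1 e2 =>
              hS p hp p' hp' q hq q' hq' hpp hqq e2 e1) hI2 hI1 _ _ hqs hps hqm hpm hr h3
          exact this.symm
        · push Not at h2 h3
          exact stepC P Q R IH _ _ hps hqs hpm hqm hr
            (fun q hq hr' => by by_contra hne; exact h3 q hq hne hr')
            (fun p hp hr' => by by_contra hne; exact h2 p hp hne hr')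
    · by_cases h : ∀ q ∈ Q, ¬ R (P.max' hP) q
      · exact stepA P Q R IH _ hps hpm h
      · push Not at h
        obtain ⟨q0, hq0, hr0⟩ := h
        have h' : ∀ p ∈ P, ¬ R p (Q.max' hQ) := by
          intro p hp hr'
          have hq0ne : q0 ≠ Q.max' hQ := fun e => hr (by rw [← e]; exact hr0)
          have hpne : p ≠ P.max' hP := fun e => hr (by rw [← e]; exact hr')
          exact hr (hS p hp _ hps q0 hq0 _ hqs (lt_of_le_of_ne (hpm p hp) hpne)
            (lt_of_le_of_ne (hqm q0 hq0) hq0ne) hr' hr0).2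
        have := stepA Q P (fun q p => R p q) IH' _ hqs hqm h'
        exact this.symm

end Pool.Agent.Helper1.Lev
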