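import Mathlib
import Pool.Agent.Helper1.Lev.Unit

set_option autoImplicit false

/-!
Coordinates for leveled graphs.
-/

namespace Pool.Agent.Helper1.Lev

open Filter Topology

/-- Leveled graphs: edges inside a level form a proper interval structure, edges between adjacent
levels are strongly ordered and have interval fans. -/
structure IsLev {V : Type} (G : SimpleGraph V) (ℓ r : V → ℕ) : Prop where
  inj : ∀ u v, ℓ u = ℓ v → r u = r v → u = v
  same : ∀ u v w x, G.Adj u v → ℓ u = ℓ v → ℓ w = ℓ u → ℓ x = ℓ u → r u ≤ r w → r w < r x →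
    r x ≤ r v → G.Adj w x
  near : ∀ u v, G.Adj u v → ℓ v ≤ ℓ u + 1
  strong : ∀ u u' v v', ℓ u' = ℓ u → ℓ v = ℓ u + 1 → ℓ v' = ℓ v → r u < r u' → r v < r v' →
    G.Adj u v' → G.Adj u' v → G.Adj u v ∧ G.Adj u' v'
  fan : ∀ u v w x, G.Adj u v → G.Adj u x → ℓ u ≠ ℓ v → ℓ w = ℓ v → ℓ x = ℓ v →
    r v < r w → r w < r x → G.Adj u w

theorem ev_pos {g : ℝ → ℝ} (hg : Continuous g) (h0 : 0 < g 0) :
    ∀ᶠ δ in 𝓝[>] (0 : ℝ), 0 < g δ := by
  have : Tendsto g (𝓝[>] (0 : ℝ)) (𝓝 (g 0)) := (hg.tendsto 0).mono_left nhdsWithin_le_nhds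
  exact this.eventually (eventually_gt_nhds h0)

theorem exists_seq {α : Type} (P : ℕ → α → α → Prop) (h : ∀ i y, ∃ x, P i x y) (x0 : α)
    (N : ℕ) : ∃ K : ℕ → α, ∀ i < N, P i (K i) (K (i + 1)) := by
  choose f hf using h
  let T : ℕ → α := fun n => Nat.rec x0 (fun k y => f (N - 1 - k) y) n
  have hT : ∀ k, T (k + 1) = f (N - 1 - k) (T k) := fun k => rfl
  refine ⟨fun i => T (N - i), ?_⟩
  intro i hi
  have e1 : N - i = (N - (i + 1)) + 1 := by omega
  have e2 : N - 1 - (N - (i + 1)) = i := by omega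
  simp only
  rw [e1, hT, e2]
  exact hf i _

theorem grow_eventually (s t C μ : ℝ) (hst : s < t) (ht : 0 < t) (hμ : 0 < μ) :
    ∀ᶠ x in (atTop : Filter ℝ), C + x ^ s < μ * x ^ t := by
  have h1 := (tendsto_rpow_atTop (sub_pos.2 hst)).eventually_gt_atTop (2 / μ)
  have h2 := (tendsto_rpow_atTop ht).eventually_gt_atTop (2 * C / μ)
  filter_upwards [h1, h2, eventually_gt_atTop 0] with x hx1 hx2 hx0
  have e1 : x ^ t = x ^ s * x ^ (t - s) := by
    rw [← Real.rpow_add hx0]; congr 1; ring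
  have p1 : 0 < x ^ s := Real.rpow_pos_of_pos hx0 _
  have e2 : x ^ s * (2 / μ) < x ^ t := by
    rw [e1]; exact mul_lt_mul_of_pos_left hx1 p1
  have e3 : x ^ s * (2 / μ) * μ < x ^ t * μ := mul_lt_mul_of_pos_right e2 hμ
  have e4 : x ^ s * (2 / μ) * μ = 2 * x ^ s := by field_simp
  have e5 : 2 * C / μ * μ < x ^ t * μ := mul_lt_mul_of_pos_right hx2 hμ
  have e6 : 2 * C / μ * μ = 2 * C := by field_simp
  linarith

theorem exists_mu {V : Type} [Finite V] (f : V → ℝ) (a b : V) (S : Set V)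
    (h : ∀ c ∈ S, f a < f c) :
    ∃ μ : ℝ, 0 < μ ∧ μ < 1 ∧ ∀ c ∈ S, (1 - μ) * f a + μ * f b < f c := by
  have h1 : ∀ᶠ μ in 𝓝[>] (0 : ℝ), ∀ c, c ∈ S → (1 - μ) * f a + μ * f b < f c := by
    rw [eventually_all]
    intro c
    by_cases hcc : c ∈ S
    · have := h c hcc
      filter_upwards [ev_pos (g := fun μ => f c - ((1 - μ) * f a + μ * f b))
        (by fun_prop) (by simp only [zero_mul, sub_zero, one_mul, add_zero]; linarith)] with ε hε
      intro _
      linarith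
    · filter_upwards with ε
      intro h1
      exact absurd h1 hcc
  have h3 : ∀ᶠ ε in 𝓝[>] (0 : ℝ), 0 < 1 - ε := ev_pos (by fun_prop) (by norm_num)
  obtain ⟨μ, ⟨⟨e2, e3⟩, e4⟩⟩ :=
    ((h1.and h3).and (self_mem_nhdsWithin (a := (0 : ℝ)) (s := Set.Ioi 0))).exists
  exact ⟨μ, e4, by linarith, e2⟩

theorem exists_coord {V : Type} [Fintype V] {G : SimpleGraph V} {ℓ r : V → ℕ}
    (h : IsLev G ℓ r) :
    ∃ (U W : V → ℝ) (K : ℕ → ℝ), (∀ j, 1 < K j) ∧ (∀ v, 0 < U v) ∧ (∀ v, 0 < W v) ∧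
      (∀ u v, ℓ u = ℓ v → r u < r v → U u < U v) ∧
      (∀ u v, ℓ u = ℓ v → r u < r v → W u < W v) ∧
      (∀ u v, ℓ v = ℓ u + 1 → G.Adj u v → W v < K (ℓ v) * U u ∧ U u < K (ℓ v) * W v) ∧
      (∀ u v, ℓ v = ℓ u + 1 → ¬ G.Adj u v → K (ℓ v) * U u < W v ∨ K (ℓ v) * W v < U u) ∧
      (∀ a b, ℓ a = ℓ b → r a < r b → ∃ μ : ℝ, 0 < μ ∧ μ < 1 ∧
        (∀ c, ℓ c = ℓ b → r a < r c → (1 - μ) * U a + μ * U b < U c) ∧
        (∀ c, ℓ c = ℓ b → r c < r b → U c + W c < μ * W b)) := by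
  classical
  -- bundles
  have hb : ∀ j : ℕ, ∃ a b : ℕ → ℝ,
      (∀ u v, ℓ u + 1 = j → ℓ v + 1 = j → r u < r v → a (r u) < a (r v)) ∧
      (∀ u v, ℓ u = j → ℓ v = j → r u < r v → b (r u) < b (r v)) ∧
      (∀ u v, ℓ u + 1 = j → ℓ v = j → G.Adj u v → |a (r u) - b (r v)| < 1) ∧
      (∀ u v, ℓ u + 1 = j → ℓ v = j → ¬ G.Adj u v → 1 < |a (r u) - b (r v)|) ∧
      (∀ v, ℓ v = j → 0 < b (r v)) := by
    intro j
    have key : ∀ u v, ℓ u + 1 = j → ℓ v = j →
        ((∃ u' v', ℓ u' + 1 = j ∧ ℓ v' = j ∧ r u' = r u ∧ r v' = r v ∧ G.Adj u' v') ↔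
          G.Adj u v) := by
      intro u v hu hv
      constructor
      · rintro ⟨u', v', hu', hv', e1, e2, hadj⟩
        have h1 : u' = u := h.inj u' u (by omega) e1
        have h2 : v' = v := h.inj v' v (by omega) e2
        rw [← h1, ← h2]; exact hadj
      · intro hadj
        exact ⟨u, v, hu, hv, rfl, rfl, hadj⟩
    have memP : ∀ p, p ∈ (Finset.univ.filter (fun v => ℓ v + 1 = j)).image r →
        ∃ v, ℓ v + 1 = j ∧ r v = p := by
      intro p hp
      obtain ⟨v, hv, e⟩ := Finset.mem_image.1 hp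
      exact ⟨v, (Finset.mem_filter.1 hv).2, e⟩
    have memQ : ∀ p, p ∈ (Finset.univ.filter (fun v => ℓ v = j)).image r →
        ∃ v, ℓ v = j ∧ r v = p := by
      intro p hp
      obtain ⟨v, hv, e⟩ := Finset.mem_image.1 hp
      exact ⟨v, (Finset.mem_filter.1 hv).2, e⟩
    have inP : ∀ v, ℓ v + 1 = j → r v ∈ (Finset.univ.filter (fun v => ℓ v + 1 = j)).image r :=
      fun v hv => Finset.mem_image_of_mem _ (Finset.mem_filter.2 ⟨Finset.mem_univ _, hv⟩)
    have inQ : ∀ v, ℓ v = j → r v ∈ (Finset.univ.filter (fun v => ℓ v = j)).image r :=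
      fun v hv => Finset.mem_image_of_mem _ (Finset.mem_filter.2 ⟨Finset.mem_univ _, hv⟩)
    obtain ⟨a, b, h1, h2, h3, h4⟩ := unit_sol _
      ((Finset.univ.filter (fun v => ℓ v + 1 = j)).image r)
      ((Finset.univ.filter (fun v => ℓ v = j)).image r)
      (fun p q => ∃ u v, ℓ u + 1 = j ∧ ℓ v = j ∧ r u = p ∧ r v = q ∧ G.Adj u v) rfl
      (by
        intro p hp p' hp' q hq q' hq' hpp hqq
        obtain ⟨u, hu, rfl⟩ := memP p hp
        obtain ⟨u', hu', rfl⟩ := memP p' hp'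
        obtain ⟨v, hv, rfl⟩ := memQ q hq
        obtain ⟨v', hv', rfl⟩ := memQ q' hq'
        rw [key u v' hu hv', key u' v hu' hv, key u v hu hv, key u' v' hu' hv']
        exact h.strong u u' v v' (by omega) (by omega) (by omega) hpp hqq)
      (by
        intro q hq p hp p' hp' p'' hp'' hpp hpp'
        obtain ⟨u, hu, rfl⟩ := memP p hp
        obtain ⟨u', hu', rfl⟩ := memP p' hp'
        obtain ⟨u'', hu'', rfl⟩ := memP p'' hp''
        obtain ⟨v, hv, rfl⟩ := memQ q hq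
        rw [key u v hu hv, key u' v hu' hv, key u'' v hu'' hv]
        intro e1 e2
        exact (h.fan v u u' u'' e1.symm e2.symm (by omega) (by omega) (by omega) hpp hpp').symm)
      (by
        intro p hp q hq q' hq' q'' hq'' hqq hqq'
        obtain ⟨u, hu, rfl⟩ := memP p hp
        obtain ⟨v, hv, rfl⟩ := memQ q hq
        obtain ⟨v', hv', rfl⟩ := memQ q' hq'
        obtain ⟨v'', hv'', rfl⟩ := memQ q'' hq''
        rw [key u v hu hv, key u v' hu hv', key u v'' hu hv'']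
        intro e1 e2
        exact h.fan u v v' v'' e1 e2 (by omega) (by omega) (by omega) hqq hqq')
    obtain ⟨M, hM⟩ := exists_bound ((Finset.univ.filter (fun v => ℓ v = j)).image r)
      (fun q => 1 - b q)
    refine ⟨fun p => a p + M, fun q => b q + M, ?_, ?_, ?_, ?_, ?_⟩
    · intro u v hu hv huv
      have := h1 _ (inP u hu) _ (inP v hv) huv
      linarith
    · intro u v hu hv huv
      have := h2 _ (inQ u hu) _ (inQ v hv) huv
      linarith
    · intro u v hu hv huv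
      have := h3 _ (inP u hu) _ (inQ v hv) ((key u v hu hv).2 huv)
      rw [show a (r u) + M - (b (r v) + M) = a (r u) - b (r v) by ring]
      exact this
    · intro u v hu hv huv
      have := h4 _ (inP u hu) _ (inQ v hv) (fun e => huv ((key u v hu hv).1 e))
      rw [show a (r u) + M - (b (r v) + M) = a (r u) - b (r v) by ring]
      exact this
    · intro v hv
      have := hM _ (inQ v hv)
      linarith
  choose a b ha hb' he hn hb0 using hb
  -- bases
  obtain ⟨N0, hN0⟩ := (Finset.univ.image ℓ).exists_le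
  have hN : ∀ v, ℓ v < N0 + 1 := fun v =>
    Nat.lt_succ_of_le (hN0 _ (Finset.mem_image_of_mem _ (Finset.mem_univ v)))
  obtain ⟨K, hK⟩ := exists_seq (α := {x : ℝ // 1 < x})
    (fun j x y => ∀ u v, ℓ u = j → ℓ v = j → r u < r v → ∃ μ : ℝ, 0 < μ ∧ μ < 1 ∧
      (∀ c, ℓ c = j → r u < r c → (1 - μ) * (y : ℝ) ^ a (j + 1) (r u) +
        μ * (y : ℝ) ^ a (j + 1) (r v) < (y : ℝ) ^ a (j + 1) (r c)) ∧
      (∀ c, ℓ c = j → r c < r v → (y : ℝ) ^ a (j + 1) (r c) + (x : ℝ) ^ b j (r c) <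
        μ * (x : ℝ) ^ b j (r v)))
    (by
      intro j y
      have hmu : ∀ t : V × V, ∃ μ : ℝ, 0 < μ ∧ μ < 1 ∧ ∀ c ∈ {c | ℓ t.1 = j ∧ ℓ c = j ∧
          r t.1 < r c}, (1 - μ) * (y : ℝ) ^ a (j + 1) (r t.1) +
          μ * (y : ℝ) ^ a (j + 1) (r t.2) < (y : ℝ) ^ a (j + 1) (r c) := by
        intro t
        refine exists_mu (fun v => (y : ℝ) ^ a (j + 1) (r v)) t.1 t.2 _ ?_
        rintro c ⟨h1, h2, h3⟩
        exact Real.rpow_lt_rpow_of_exponent_lt y.2 (ha (j + 1) t.1 c (by omega) (by omega) h3)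
      choose μ hμ0 hμ1 hμ2 using hmu
      have hev : ∀ᶠ x in (atTop : Filter ℝ), ∀ t : V × V × V, ℓ t.2.1 = j →
          ℓ t.2.2 = j → r t.2.2 < r t.2.1 →
          (y : ℝ) ^ a (j + 1) (r t.2.2) + x ^ b j (r t.2.2) <
            μ (t.1, t.2.1) * x ^ b j (r t.2.1) := by
        rw [eventually_all]
        rintro ⟨u, v, w⟩
        by_cases hc : ℓ v = j ∧ ℓ w = j ∧ r w < r v
        · obtain ⟨hv, hw, hvw⟩ := hc
          filter_upwards [grow_eventually (b j (r w)) (b j (r v))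
            ((y : ℝ) ^ a (j + 1) (r w)) (μ (u, v)) (hb' j w v hw hv hvw) (hb0 j v hv)
            (hμ0 _)] with x hx
          intro _ _ _
          exact hx
        · filter_upwards with x
          intro h1 h2 h3
          exact absurd ⟨h1, h2, h3⟩ hc
      obtain ⟨x, hx1, hx2⟩ := (hev.and (eventually_gt_atTop 1)).exists
      refine ⟨⟨x, hx2⟩, ?_⟩
      intro u v hu hv huv
      refine ⟨μ (u, v), hμ0 _, hμ1 _, ?_, ?_⟩
      · intro c hc hcu
        exact hμ2 (u, v) c ⟨hu, hc, hcu⟩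
      · intro c hc hcv
        exact hx1 (u, v, c) hv hc hcv)
    ⟨2, by norm_num⟩ (N0 + 1)
  have hK1 : ∀ j, 1 < (K j : ℝ) := fun j => (K j).2
  have hK0 : ∀ j, 0 < (K j : ℝ) := fun j => lt_trans one_pos (K j).2
  refine ⟨fun v => (K (ℓ v + 1) : ℝ) ^ a (ℓ v + 1) (r v), fun v => (K (ℓ v) : ℝ) ^ b (ℓ v) (r v),
    fun j => (K j : ℝ), hK1, ?_, ?_, ?_, ?_, ?_, ?_, ?_⟩
  · intro v; exact Real.rpow_pos_of_pos (hK0 _) _
  · intro v; exact Real.rpow_pos_of_pos (hK0 _) _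
  · intro u v huv hr
    simp only
    rw [huv]
    exact Real.rpow_lt_rpow_of_exponent_lt (hK1 _) (ha _ u v (by omega) rfl hr)
  · intro u v huv hr
    simp only
    rw [huv]
    exact Real.rpow_lt_rpow_of_exponent_lt (hK1 _) (hb' _ u v (by omega) rfl hr)
  · intro u v huv hadj
    simp only
    rw [← huv]
    have h1 := abs_lt.1 (he (ℓ v) u v (by omega) rfl hadj)
    constructor
    · have : (K (ℓ v) : ℝ) * (K (ℓ v) : ℝ) ^ a (ℓ v) (r u) =
          (K (ℓ v) : ℝ) ^ (a (ℓ v) (r u) + 1) := by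
        rw [Real.rpow_add (hK0 _), Real.rpow_one]; ring
      rw [this]
      exact Real.rpow_lt_rpow_of_exponent_lt (hK1 _) (by linarith)
    · have : (K (ℓ v) : ℝ) * (K (ℓ v) : ℝ) ^ b (ℓ v) (r v) =
          (K (ℓ v) : ℝ) ^ (b (ℓ v) (r v) + 1) := by
        rw [Real.rpow_add (hK0 _), Real.rpow_one]; ring
      rw [this]
      exact Real.rpow_lt_rpow_of_exponent_lt (hK1 _) (by linarith)
  · intro u v huv hadj
    simp only
    rw [← huv]
    rcases lt_abs.1 (hn (ℓ v) u v (by omega) rfl hadj) with h1 | h1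
    · right
      have : (K (ℓ v) : ℝ) * (K (ℓ v) : ℝ) ^ b (ℓ v) (r v) =
          (K (ℓ v) : ℝ) ^ (b (ℓ v) (r v) + 1) := by
        rw [Real.rpow_add (hK0 _), Real.rpow_one]; ring
      rw [this]
      exact Real.rpow_lt_rpow_of_exponent_lt (hK1 _) (by linarith)
    · left
      have : (K (ℓ v) : ℝ) * (K (ℓ v) : ℝ) ^ a (ℓ v) (r u) =
          (K (ℓ v) : ℝ) ^ (a (ℓ v) (r u) + 1) := by
        rw [Real.rpow_add (hK0 _), Real.rpow_one]; ring
      rw [this]
      exact Real.rpow_lt_rpow_of_exponent_lt (hK1 _) (by linarith)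
  · intro u v huv h1
    obtain ⟨μ, e1, e2, e3, e4⟩ := hK (ℓ v) (hN v) u v huv rfl h1
    refine ⟨μ, e1, e2, ?_, ?_⟩
    · intro c hc hcu
      have := e3 c hc hcu
      simp only
      rw [huv, hc]
      exact this
    · intro c hc hcv
      have := e4 c hc hcv
      simp only
      rw [hc]
      exact this

end Pool.Agent.Helper1.Lev
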