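import Mathlib

set_option autoImplicit false

/-!
One-obstacle criterion: every non-edge contains a point that is seen from below or from above
by a vertical ray.
-/

namespace Pool.Agent.Helper1.Lev

theorem comb_le {a b x y B : ℝ} (ha : 0 ≤ a) (hb : 0 ≤ b) (hab : a + b = 1) (hx : x ≤ B)
    (hy : y ≤ B) : a * x + b * y ≤ B := by
  have h1 := mul_le_mul_of_nonneg_left hx ha
  have h2 := mul_le_mul_of_nonneg_left hy hb
  have e : a * B + b * B = B := by rw [← add_mul, hab, one_mul]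
  linarith

theorem comb_ge {a b x y B : ℝ} (ha : 0 ≤ a) (hb : 0 ≤ b) (hab : a + b = 1) (hx : B ≤ x)
    (hy : B ≤ y) : B ≤ a * x + b * y := by
  have h1 := mul_le_mul_of_nonneg_left hx ha
  have h2 := mul_le_mul_of_nonneg_left hy hb
  have e : a * B + b * B = B := by rw [← add_mul, hab, one_mul]
  linarith

/-- Everything of the drawing on the vertical line through `m` is strictly above `m`. -/
def Low {V : Type} (G : SimpleGraph V) (q : V → ℝ × ℝ) (m : ℝ × ℝ) : Prop :=
  (∀ c d, G.Adj c d → ∀ z ∈ segment ℝ (q c) (q d), z.1 = m.1 → m.2 < z.2) ∧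
    (∀ c, (q c).1 = m.1 → m.2 < (q c).2)

/-- Everything of the drawing on the vertical line through `m` is strictly below `m`. -/
def Upp {V : Type} (G : SimpleGraph V) (q : V → ℝ × ℝ) (m : ℝ × ℝ) : Prop :=
  (∀ c d, G.Adj c d → ∀ z ∈ segment ℝ (q c) (q d), z.1 = m.1 → z.2 < m.2) ∧
    (∀ c, (q c).1 = m.1 → (q c).2 < m.2)

theorem low_preconnected (S : Set (ℝ × ℝ)) (M : ℝ) (h1 : ∀ z : ℝ × ℝ, z.2 ≤ -M → z ∈ S)
    (h2 : ∀ z ∈ S, ∀ w : ℝ × ℝ, w.1 = z.1 → w.2 ≤ z.2 → w ∈ S) : IsPreconnected S := by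
  have hA : Convex ℝ {z : ℝ × ℝ | z.2 ≤ -M} := by
    intro z hz w hw a b ha hb hab
    simp only [Set.mem_ofPred_eq, Prod.snd_add, Prod.smul_snd, smul_eq_mul] at *
    exact comb_le ha hb hab hz hw
  refine isPreconnected_of_forall ((0 : ℝ), -M) ?_
  intro z hz
  have hB : Convex ℝ {w : ℝ × ℝ | w.1 = z.1 ∧ w.2 ≤ z.2} := by
    intro v hv w hw a b ha hb hab
    simp only [Set.mem_ofPred_eq, Prod.snd_add, Prod.smul_snd, smul_eq_mul, Prod.fst_add,
      Prod.smul_fst] at *
    constructor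
    · rw [hv.1, hw.1, ← add_mul, hab, one_mul]
    · exact comb_le ha hb hab hv.2 hw.2
  refine ⟨{z : ℝ × ℝ | z.2 ≤ -M} ∪ {w : ℝ × ℝ | w.1 = z.1 ∧ w.2 ≤ z.2}, ?_, ?_, ?_, ?_⟩
  · rintro w (hw | hw)
    · exact h1 w hw
    · exact h2 z hz w hw.1 hw.2
  · left; simp
  · right; simp
  · exact IsPreconnected.union (z.1, min z.2 (-M)) (by simp) (by simp) hA.isPreconnected
      hB.isPreconnected

theorem upp_preconnected (S : Set (ℝ × ℝ)) (M : ℝ) (h1 : ∀ z : ℝ × ℝ, M ≤ z.2 → z ∈ S)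
    (h2 : ∀ z ∈ S, ∀ w : ℝ × ℝ, w.1 = z.1 → z.2 ≤ w.2 → w ∈ S) : IsPreconnected S := by
  have hA : Convex ℝ {z : ℝ × ℝ | M ≤ z.2} := by
    intro z hz w hw a b ha hb hab
    simp only [Set.mem_ofPred_eq, Prod.snd_add, Prod.smul_snd, smul_eq_mul] at *
    exact comb_ge ha hb hab hz hw
  refine isPreconnected_of_forall ((0 : ℝ), M) ?_
  intro z hz
  have hB : Convex ℝ {w : ℝ × ℝ | w.1 = z.1 ∧ z.2 ≤ w.2} := by
    intro v hv w hw a b ha hb hab
    simp only [Set.mem_ofPred_eq, Prod.snd_add, Prod.smul_snd, smul_eq_mul, Prod.fst_add,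
      Prod.smul_fst] at *
    constructor
    · rw [hv.1, hw.1, ← add_mul, hab, one_mul]
    · exact comb_ge ha hb hab hv.2 hw.2
  refine ⟨{z : ℝ × ℝ | M ≤ z.2} ∪ {w : ℝ × ℝ | w.1 = z.1 ∧ z.2 ≤ w.2}, ?_, ?_, ?_, ?_⟩
  · rintro w (hw | hw)
    · exact h1 w hw
    · exact h2 z hz w hw.1 hw.2
  · left; simp
  · right; simp
  · exact IsPreconnected.union (z.1, max z.2 M) (by simp) (by simp) hA.isPreconnected
      hB.isPreconnected

theorem seg_bound {p p' z : ℝ × ℝ} (hz : z ∈ segment ℝ p p') (M : ℝ)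
    (h1 : |p.1| < M ∧ |p.2| < M) (h2 : |p'.1| < M ∧ |p'.2| < M) : |z.1| < M ∧ |z.2| < M := by
  obtain ⟨a, b, ha, hb, hab, rfl⟩ := hz
  simp only [Prod.snd_add, Prod.smul_snd, smul_eq_mul, Prod.fst_add, Prod.smul_fst]
  have e1 := abs_lt.1 h1.1
  have e2 := abs_lt.1 h1.2
  have e3 := abs_lt.1 h2.1
  have e4 := abs_lt.1 h2.2
  have hb' : b = 1 - a := by linarith
  subst hb'
  rcases eq_or_lt_of_le ha with h0 | h0
  · subst h0
    simp only [zero_mul, sub_zero, one_mul, zero_add]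
    exact h2
  · constructor <;> rw [abs_lt] <;> constructor <;> nlinarith

theorem obstacle_of_rays {V : Type} [Fintype V] (G : SimpleGraph V) (q : V → ℝ × ℝ)
    (H : ∀ u v, u ≠ v → ¬ G.Adj u v → ∃ m ∈ segment ℝ (q u) (q v), Low G q m ∨ Upp G q m) :
    ∃ O : Set (ℝ × ℝ), IsPreconnected O ∧ (∀ v, q v ∉ O) ∧
      ∀ u v, u ≠ v → (G.Adj u v ↔ Disjoint (segment ℝ (q u) (q v)) O) := by
  classical
  obtain ⟨M0, hM0⟩ := (Finset.univ.image (fun v : V => max |(q v).1| |(q v).2|)).exists_le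
  have hM : ∀ v, |(q v).1| < M0 + 1 ∧ |(q v).2| < M0 + 1 := by
    intro v
    have := hM0 _ (Finset.mem_image_of_mem _ (Finset.mem_univ v))
    have h1 := le_max_left |(q v).1| |(q v).2|
    have h2 := le_max_right |(q v).1| |(q v).2|
    constructor <;> linarith
  set M := M0 + 1 with hMdef
  have hseg : ∀ c d, ∀ z ∈ segment ℝ (q c) (q d), |z.1| < M ∧ |z.2| < M := fun c d z hz =>
    seg_bound hz M (hM c) (hM d)
  have hleft : ∀ z : ℝ × ℝ, z.1 ≤ -M → Low G q z ∧ Upp G q z := by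
    intro z hz
    refine ⟨⟨?_, ?_⟩, ⟨?_, ?_⟩⟩
    · intro c d _ w hw e
      have := (abs_lt.1 (hseg c d w hw).1).1
      linarith
    · intro c e
      have := (abs_lt.1 (hM c).1).1
      linarith
    · intro c d _ w hw e
      have := (abs_lt.1 (hseg c d w hw).1).1
      linarith
    · intro c e
      have := (abs_lt.1 (hM c).1).1
      linarith
  have hlow : IsPreconnected {z | Low G q z} := by
    refine low_preconnected _ M ?_ ?_
    · intro z hz
      refine ⟨?_, ?_⟩
      · intro c d _ w hw _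
        have := (abs_lt.1 (hseg c d w hw).2).1
        linarith
      · intro c _
        have := (abs_lt.1 (hM c).2).1
        linarith
    · intro z hz w hw1 hw2
      refine ⟨?_, ?_⟩
      · intro c d hcd y hy e
        have := hz.1 c d hcd y hy (by rw [e, hw1])
        linarith
      · intro c e
        have := hz.2 c (by rw [e, hw1])
        linarith
  have hupp : IsPreconnected {z | Upp G q z} := by
    refine upp_preconnected _ M ?_ ?_
    · intro z hz
      refine ⟨?_, ?_⟩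
      · intro c d _ w hw _
        have := (abs_lt.1 (hseg c d w hw).2).2
        linarith
      · intro c _
        have := (abs_lt.1 (hM c).2).2
        linarith
    · intro z hz w hw1 hw2
      refine ⟨?_, ?_⟩
      · intro c d hcd y hy e
        have := hz.1 c d hcd y hy (by rw [e, hw1])
        linarith
      · intro c e
        have := hz.2 c (by rw [e, hw1])
        linarith
  refine ⟨{z | Low G q z} ∪ {z | Upp G q z}, ?_, ?_, ?_⟩
  · exact IsPreconnected.union (-M, 0) (hleft _ le_rfl).1 (hleft _ le_rfl).2 hlow hupp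
  · rintro v (h | h)
    · exact lt_irrefl _ (h.2 v rfl)
    · exact lt_irrefl _ (h.2 v rfl)
  · intro u v huv
    constructor
    · intro hadj
      rw [Set.disjoint_left]
      rintro z hz (h | h)
      · exact lt_irrefl _ (h.1 u v hadj z hz rfl)
      · exact lt_irrefl _ (h.1 u v hadj z hz rfl)
    · intro hdis
      by_contra hnadj
      obtain ⟨m, hm, hm'⟩ := H u v huv hnadj
      exact Set.disjoint_left.1 hdis hm hm'

end Pool.Agent.Helper1.Lev
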