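import Mathlib
import Pool.Agent.Helper1.Lev.Coord
import Pool.Agent.Helper1.Lev.Rays

set_option autoImplicit false

/-!
Geometry of the leveled drawing.
-/

namespace Pool.Agent.Helper1.Lev

open Filter Topology

section

variable {V : Type} (ℓ : V → ℕ) (U W : V → ℝ)

/-- x-direction of the perturbation -/
noncomputable def sc (v : V) : ℝ := -(U v + W v) / 2

/-- the point of the vertex `v` -/
noncomputable def pt (δ : ℝ) (v : V) : ℝ × ℝ :=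
  ((ℓ v : ℝ) + δ * sc U W v, (ℓ v : ℝ) ^ 2 + δ * (U v + (2 * (ℓ v : ℝ) + 1) * sc U W v))

/-- vertical distance to the central line of gate `i` -/
def ff (i : ℝ) (z : ℝ × ℝ) : ℝ := z.2 - i ^ 2 - (2 * i + 1) * (z.1 - i)

theorem ff_pt (δ : ℝ) (v : V) : ff (ℓ v) (pt ℓ U W δ v) = δ * U v := by
  simp only [ff, pt]; ring

theorem ff_pt' (δ : ℝ) (v : V) (i : ℝ) (hi : (ℓ v : ℝ) = i + 1) :
    ff i (pt ℓ U W δ v) = -(δ * W v) := by
  simp only [ff, pt, sc, hi]; ring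

theorem pt_fst (δ : ℝ) (v : V) : (pt ℓ U W δ v).1 = (ℓ v : ℝ) + δ * sc U W v := rfl

end

theorem lt_of_ff {i : ℝ} {z m : ℝ × ℝ} (h1 : z.1 = m.1) (h : ff i m < ff i z) : m.2 < z.2 := by
  simp only [ff, h1] at h
  linarith

theorem seg_ff {p p' z : ℝ × ℝ} (hz : z ∈ segment ℝ p p') (i : ℝ) :
    (p'.1 - p.1) * ff i z = (p'.1 - z.1) * ff i p + (z.1 - p.1) * ff i p' := by
  obtain ⟨a, b, ha, hb, hab, rfl⟩ := hz
  obtain rfl : a = 1 - b := by linarith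
  simp only [ff, Prod.snd_add, Prod.smul_snd, smul_eq_mul, Prod.fst_add, Prod.smul_fst]
  ring

theorem seg_x {p p' z : ℝ × ℝ} (hz : z ∈ segment ℝ p p') {A B : ℝ} (h1 : A ≤ p.1) (h2 : p.1 ≤ B)
    (h3 : A ≤ p'.1) (h4 : p'.1 ≤ B) : A ≤ z.1 ∧ z.1 ≤ B := by
  obtain ⟨a, b, ha, hb, hab, rfl⟩ := hz
  simp only [Prod.fst_add, Prod.smul_fst, smul_eq_mul]
  exact ⟨comb_ge ha hb hab h1 h3, comb_le ha hb hab h2 h4⟩

theorem exists_seg {p p' : ℝ × ℝ} {x : ℝ} (h : p.1 < p'.1) (h1 : p.1 ≤ x) (h2 : x ≤ p'.1) :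
    ∃ z ∈ segment ℝ p p', z.1 = x := by
  have h0 : 0 < p'.1 - p.1 := by linarith
  refine ⟨((p'.1 - x) / (p'.1 - p.1)) • p + ((x - p.1) / (p'.1 - p.1)) • p',
    ⟨(p'.1 - x) / (p'.1 - p.1), (x - p.1) / (p'.1 - p.1), ?_, ?_, ?_, rfl⟩, ?_⟩
  · exact div_nonneg (by linarith) h0.le
  · exact div_nonneg (by linarith) h0.le
  · rw [← add_div]
    rw [show p'.1 - x + (x - p.1) = p'.1 - p.1 by ring]
    exact div_self h0.ne'
  · simp only [Prod.fst_add, Prod.smul_fst, smul_eq_mul]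
    field_simp
    ring

theorem ff_le {p p' z : ℝ × ℝ} (hz : z ∈ segment ℝ p p') {i B : ℝ} (h1 : B ≤ ff i p)
    (h2 : B ≤ ff i p') : B ≤ ff i z := by
  obtain ⟨a, b, ha, hb, hab, rfl⟩ := hz
  have e : ff i (a • p + b • p') = a * ff i p + b * ff i p' := by
    obtain rfl : a = 1 - b := by linarith
    simp only [ff, Prod.snd_add, Prod.smul_snd, smul_eq_mul, Prod.fst_add, Prod.smul_fst]
    ring
  rw [e]
  exact comb_ge ha hb hab h1 h2

/-- The coordinates produced by `exists_coord`. -/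
structure Coord {V : Type} (G : SimpleGraph V) (ℓ r : V → ℕ) (U W : V → ℝ) (K : ℕ → ℝ) :
    Prop where
  K1 : ∀ j, 1 < K j
  U0 : ∀ v, 0 < U v
  W0 : ∀ v, 0 < W v
  Um : ∀ u v, ℓ u = ℓ v → r u < r v → U u < U v
  Wm : ∀ u v, ℓ u = ℓ v → r u < r v → W u < W v
  edge : ∀ u v, ℓ v = ℓ u + 1 → G.Adj u v → W v < K (ℓ v) * U u ∧ U u < K (ℓ v) * W v
  non : ∀ u v, ℓ v = ℓ u + 1 → ¬ G.Adj u v → K (ℓ v) * U u < W v ∨ K (ℓ v) * W v < U u
  conc : ∀ a b, ℓ a = ℓ b → r a < r b → ∃ μ : ℝ, 0 < μ ∧ μ < 1 ∧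
    (∀ c, ℓ c = ℓ b → r a < r c → (1 - μ) * U a + μ * U b < U c) ∧
    (∀ c, ℓ c = ℓ b → r c < r b → U c + W c < μ * W b)

/-- Conditions on the perturbation parameter. -/
structure Basic {V : Type} (G : SimpleGraph V) (ℓ : V → ℕ) (U W : V → ℝ) (K : ℕ → ℝ)
    (δ : ℝ) : Prop where
  pos : 0 < δ
  right : ∀ v, (ℓ v : ℝ) - 1 / (1 + K (ℓ v)) < (pt ℓ U W δ v).1
  eB : ∀ c d, ℓ d = ℓ c + 1 → G.Adj c d →
    0 < ((pt ℓ U W δ d).1 - ((ℓ c : ℝ) + 1 / (1 + K (ℓ d)))) * U c -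
      (((ℓ c : ℝ) + 1 / (1 + K (ℓ d))) - (pt ℓ U W δ c).1) * W d
  eT : ∀ c d, ℓ d = ℓ c + 1 → G.Adj c d →
    0 < (((ℓ d : ℝ) - 1 / (1 + K (ℓ d))) - (pt ℓ U W δ c).1) * W d -
      ((pt ℓ U W δ d).1 - ((ℓ d : ℝ) - 1 / (1 + K (ℓ d)))) * U c

section

variable {V : Type} {G : SimpleGraph V} {ℓ r : V → ℕ} {U W : V → ℝ} {K : ℕ → ℝ}

theorem eps_pos (hc : Coord G ℓ r U W K) (j : ℕ) : 0 < 1 / (1 + K j) := by
  have := hc.K1 j
  positivity

theorem eps_lt (hc : Coord G ℓ r U W K) (j : ℕ) : 1 / (1 + K j) < 1 / 2 := by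
  have := hc.K1 j
  apply one_div_lt_one_div_of_lt <;> linarith

theorem basic_eventually [Finite V] (hc : Coord G ℓ r U W K) :
    ∀ᶠ δ in 𝓝[>] (0 : ℝ), Basic G ℓ U W K δ := by
  have h1 : ∀ᶠ δ in 𝓝[>] (0 : ℝ), ∀ v, (ℓ v : ℝ) - 1 / (1 + K (ℓ v)) < (pt ℓ U W δ v).1 := by
    rw [eventually_all]
    intro v
    have := ev_pos (g := fun δ => (pt ℓ U W δ v).1 - ((ℓ v : ℝ) - 1 / (1 + K (ℓ v))))
      (by unfold pt; fun_prop) (by have := eps_pos hc (ℓ v); simp only [pt]; linarith)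
    filter_upwards [this] with δ hδ
    linarith
  have h2 : ∀ᶠ δ in 𝓝[>] (0 : ℝ), ∀ t : V × V, ℓ t.2 = ℓ t.1 + 1 → G.Adj t.1 t.2 →
    0 < ((pt ℓ U W δ t.2).1 - ((ℓ t.1 : ℝ) + 1 / (1 + K (ℓ t.2)))) * U t.1 -
      (((ℓ t.1 : ℝ) + 1 / (1 + K (ℓ t.2))) - (pt ℓ U W δ t.1).1) * W t.2 := by
    rw [eventually_all]
    rintro ⟨c, d⟩
    by_cases h : ℓ d = ℓ c + 1 ∧ G.Adj c d
    · have hK := hc.K1 (ℓ d)
      have hK' : 0 < 1 + K (ℓ d) := by linarith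
      have he := (hc.edge c d h.1 h.2).1
      have := ev_pos (g := fun δ => ((pt ℓ U W δ d).1 - ((ℓ c : ℝ) + 1 / (1 + K (ℓ d)))) * U c -
        (((ℓ c : ℝ) + 1 / (1 + K (ℓ d))) - (pt ℓ U W δ c).1) * W d)
        (by unfold pt; fun_prop) (by
          have e1 : (ℓ d : ℝ) = ℓ c + 1 := by rw [h.1]; push_cast; ring
          have e2 : ((pt ℓ U W 0 d).1 - ((ℓ c : ℝ) + 1 / (1 + K (ℓ d)))) * U c -
            (((ℓ c : ℝ) + 1 / (1 + K (ℓ d))) - (pt ℓ U W 0 c).1) * W d =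
            (K (ℓ d) * U c - W d) / (1 + K (ℓ d)) := by
            simp only [pt, e1]
            field_simp
            ring
          simp only [e2]
          apply div_pos _ hK'
          linarith)
      filter_upwards [this] with δ hδ
      intro _ _
      exact hδ
    · filter_upwards with δ
      intro a b
      exact absurd ⟨a, b⟩ h
  have h3 : ∀ᶠ δ in 𝓝[>] (0 : ℝ), ∀ t : V × V, ℓ t.2 = ℓ t.1 + 1 → G.Adj t.1 t.2 →
    0 < (((ℓ t.2 : ℝ) - 1 / (1 + K (ℓ t.2))) - (pt ℓ U W δ t.1).1) * W t.2 -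
      ((pt ℓ U W δ t.2).1 - ((ℓ t.2 : ℝ) - 1 / (1 + K (ℓ t.2)))) * U t.1 := by
    rw [eventually_all]
    rintro ⟨c, d⟩
    by_cases h : ℓ d = ℓ c + 1 ∧ G.Adj c d
    · have hK := hc.K1 (ℓ d)
      have hK' : 0 < 1 + K (ℓ d) := by linarith
      have he := (hc.edge c d h.1 h.2).2
      have := ev_pos (g := fun δ => (((ℓ d : ℝ) - 1 / (1 + K (ℓ d))) - (pt ℓ U W δ c).1) * W d -
        ((pt ℓ U W δ d).1 - ((ℓ d : ℝ) - 1 / (1 + K (ℓ d)))) * U c)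
        (by unfold pt; fun_prop) (by
          have e1 : (ℓ d : ℝ) = ℓ c + 1 := by rw [h.1]; push_cast; ring
          have e2 : (((ℓ d : ℝ) - 1 / (1 + K (ℓ d))) - (pt ℓ U W 0 c).1) * W d -
            ((pt ℓ U W 0 d).1 - ((ℓ d : ℝ) - 1 / (1 + K (ℓ d)))) * U c =
            (K (ℓ d) * W d - U c) / (1 + K (ℓ d)) := by
            simp only [pt, e1]
            field_simp
            ring
          simp only [e2]
          apply div_pos _ hK'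
          linarith)
      filter_upwards [this] with δ hδ
      intro _ _
      exact hδ
    · filter_upwards with δ
      intro a b
      exact absurd ⟨a, b⟩ h
  filter_upwards [h1, h2, h3, self_mem_nhdsWithin] with δ g1 g2 g3 g4
  exact ⟨g4, g1, fun c d => g2 (c, d), fun c d => g3 (c, d)⟩

end

end Pool.Agent.Helper1.Lev
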