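import Mathlib
import Pool.Agent.Helper1.Lev.Geom

set_option autoImplicit false

/-!
Blocking of all non-edges of the leveled drawing.
-/

namespace Pool.Agent.Helper1.Lev

open Filter Topology

section

variable {V : Type} {G : SimpleGraph V} {ℓ r : V → ℕ} {U W : V → ℝ} {K : ℕ → ℝ} {δ : ℝ}

theorem seg_lt {p p' z : ℝ × ℝ} (hz : z ∈ segment ℝ p p') {B : ℝ} (h1 : p.1 < B)
    (h2 : p'.1 < B) : z.1 < B := by
  have := (seg_x hz (A := min p.1 p'.1) (B := max p.1 p'.1) (min_le_left _ _) (le_max_left _ _)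
    (min_le_right _ _) (le_max_right _ _)).2
  exact lt_of_le_of_lt this (max_lt h1 h2)

theorem seg_gt {p p' z : ℝ × ℝ} (hz : z ∈ segment ℝ p p') {B : ℝ} (h1 : B < p.1)
    (h2 : B < p'.1) : B < z.1 := by
  have := (seg_x hz (A := min p.1 p'.1) (B := max p.1 p'.1) (min_le_left _ _) (le_max_left _ _)
    (min_le_right _ _) (le_max_right _ _)).1
  exact lt_of_lt_of_le (lt_min h1 h2) this

theorem x_lt (hc : Coord G ℓ r U W K) (hb : Basic G ℓ U W K δ) (v : V) :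
    (pt ℓ U W δ v).1 < ℓ v := by
  have h1 := hc.U0 v
  have h2 := hc.W0 v
  have h3 := hb.pos
  have : sc U W v < 0 := by simp only [sc]; linarith
  rw [pt_fst]
  have := mul_neg_of_pos_of_neg h3 this
  linarith

theorem x_gt (hc : Coord G ℓ r U W K) (hb : Basic G ℓ U W K δ) (v : V) :
    (ℓ v : ℝ) - 1 / 2 < (pt ℓ U W δ v).1 := by
  have h1 := hb.right v
  have h2 := eps_lt hc (ℓ v)
  linarith

/-- separation of the levels at a vertical line in gate `i` -/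
theorem sep_le (hc : Coord G ℓ r U W K) (hb : Basic G ℓ U W K δ) {i : ℕ} {x : ℝ}
    (h1 : (i : ℝ) ≤ x) {v : V} (hv : ℓ v ≤ i) : (pt ℓ U W δ v).1 < x := by
  have h := x_lt hc hb v
  have : (ℓ v : ℝ) ≤ i := by exact_mod_cast hv
  linarith

theorem sep_gt (hc : Coord G ℓ r U W K) (hb : Basic G ℓ U W K δ) {i : ℕ} {x : ℝ}
    (h1 : x ≤ (i : ℝ) + 1 - 1 / (1 + K (i + 1))) {v : V} (hv : i < ℓ v) :
    x < (pt ℓ U W δ v).1 := by
  rcases eq_or_lt_of_le (Nat.succ_le_of_lt hv) with h | h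
  · have h2 := hb.right v
    rw [← h] at h2
    push_cast at h2
    exact lt_of_le_of_lt h1 h2
  · have h2 := x_gt hc hb v
    have h3 : ((i : ℝ) + 1) + 1 ≤ ℓ v := by exact_mod_cast h
    have h4 := eps_pos hc (i + 1)
    linarith

/-- an edge crossing a vertical line of gate `i` joins the levels `i` and `i + 1` -/
theorem gate_edge (h : IsLev G ℓ r) (hc : Coord G ℓ r U W K) (hb : Basic G ℓ U W K δ) {i : ℕ}
    {x : ℝ} (h1 : (i : ℝ) ≤ x) (h2 : x ≤ (i : ℝ) + 1 - 1 / (1 + K (i + 1))) {c d : V}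
    (hcd : G.Adj c d) {z : ℝ × ℝ} (hz : z ∈ segment ℝ (pt ℓ U W δ c) (pt ℓ U W δ d))
    (hx : z.1 = x) : (ℓ c = i ∧ ℓ d = i + 1) ∨ (ℓ d = i ∧ ℓ c = i + 1) := by
  have n1 := h.near c d hcd
  have n2 := h.near d c hcd.symm
  rcases le_or_gt (ℓ c) i with hci | hci
  · rcases le_or_gt (ℓ d) i with hdi | hdi
    · exact absurd hx (seg_lt hz (sep_le hc hb h1 hci) (sep_le hc hb h1 hdi)).ne
    · left; omega
  · rcases le_or_gt (ℓ d) i with hdi | hdi
    · right; omega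
    · exact absurd hx (seg_gt hz (sep_gt hc hb h2 hci) (sep_gt hc hb h2 hdi)).ne'

theorem gate_low (h : IsLev G ℓ r) (hc : Coord G ℓ r U W K) (hb : Basic G ℓ U W K δ) {i : ℕ}
    {m : ℝ × ℝ} (hm : m.1 = (i : ℝ) + 1 / (1 + K (i + 1))) (hf : ff i m ≤ 0) :
    Low G (pt ℓ U W δ) m := by
  have e1 := eps_pos hc (i + 1)
  have e2 := eps_lt hc (i + 1)
  have h1 : (i : ℝ) ≤ m.1 := by rw [hm]; linarith
  have h2 : m.1 ≤ (i : ℝ) + 1 - 1 / (1 + K (i + 1)) := by rw [hm]; linarith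
  have key : ∀ c d, G.Adj c d → ∀ z ∈ segment ℝ (pt ℓ U W δ c) (pt ℓ U W δ d), z.1 = m.1 →
      ℓ c = i → ℓ d = i + 1 → m.2 < z.2 := by
    intro c d hcd z hz hx hci hdi
    have g1 := hb.eB c d (by omega) hcd
    rw [hdi, hci, ← hm, ← hx] at g1
    have g2 := seg_ff hz i
    have g3 : ff (i : ℝ) (pt ℓ U W δ c) = δ * U c := by rw [← hci]; exact ff_pt ℓ U W δ c
    have g4 : ff (i : ℝ) (pt ℓ U W δ d) = -(δ * W d) :=
      ff_pt' ℓ U W δ d i (by rw [hdi]; push_cast; ring)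
    rw [g3, g4] at g2
    have g5 : (pt ℓ U W δ c).1 < (pt ℓ U W δ d).1 :=
      (sep_le hc hb h1 (by omega)).trans (sep_gt hc hb h2 (by omega))
    have g6 : 0 < ((pt ℓ U W δ d).1 - (pt ℓ U W δ c).1) * ff i z := by
      rw [g2]
      have := mul_pos hb.pos g1
      linarith [this]
    have g7 : 0 < ff i z := (mul_pos_iff_of_pos_left (by linarith)).1 g6
    exact lt_of_ff hx (lt_of_le_of_lt hf g7)
  refine ⟨?_, ?_⟩
  · intro c d hcd z hz hx
    rcases gate_edge h hc hb h1 h2 hcd hz hx with ⟨hci, hdi⟩ | ⟨hdi, hci⟩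
    · exact key c d hcd z hz hx hci hdi
    · exact key d c hcd.symm z (by rw [segment_symm]; exact hz) hx hdi hci
  · intro c hcx
    rcases le_or_gt (ℓ c) i with hci | hci
    · exact absurd hcx (sep_le hc hb h1 hci).ne
    · exact absurd hcx (sep_gt hc hb h2 hci).ne'

theorem gate_upp (h : IsLev G ℓ r) (hc : Coord G ℓ r U W K) (hb : Basic G ℓ U W K δ) {i : ℕ}
    {m : ℝ × ℝ} (hm : m.1 = (i : ℝ) + 1 - 1 / (1 + K (i + 1))) (hf : 0 ≤ ff i m) :
    Upp G (pt ℓ U W δ) m := by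
  have e1 := eps_pos hc (i + 1)
  have e2 := eps_lt hc (i + 1)
  have h1 : (i : ℝ) ≤ m.1 := by rw [hm]; linarith
  have h2 : m.1 ≤ (i : ℝ) + 1 - 1 / (1 + K (i + 1)) := by rw [hm]
  have key : ∀ c d, G.Adj c d → ∀ z ∈ segment ℝ (pt ℓ U W δ c) (pt ℓ U W δ d), z.1 = m.1 →
      ℓ c = i → ℓ d = i + 1 → z.2 < m.2 := by
    intro c d hcd z hz hx hci hdi
    have g1 := hb.eT c d (by omega) hcd
    have g0 : ((i + 1 : ℕ) : ℝ) - 1 / (1 + K (i + 1)) = m.1 := by
      rw [hm]; push_cast; ring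
    rw [hdi, g0, ← hx] at g1
    have g2 := seg_ff hz i
    have g3 : ff (i : ℝ) (pt ℓ U W δ c) = δ * U c := by rw [← hci]; exact ff_pt ℓ U W δ c
    have g4 : ff (i : ℝ) (pt ℓ U W δ d) = -(δ * W d) :=
      ff_pt' ℓ U W δ d i (by rw [hdi]; push_cast; ring)
    rw [g3, g4] at g2
    have g5 : (pt ℓ U W δ c).1 < (pt ℓ U W δ d).1 :=
      (sep_le hc hb h1 (by omega)).trans (sep_gt hc hb h2 (by omega))
    have g6 : ((pt ℓ U W δ d).1 - (pt ℓ U W δ c).1) * ff i z < 0 := by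
      rw [g2]
      have := mul_pos hb.pos g1
      linarith [this]
    have g7 : ff i z < 0 := by
      by_contra hcon
      push Not at hcon
      have := mul_nonneg (show (0 : ℝ) ≤ (pt ℓ U W δ d).1 - (pt ℓ U W δ c).1 by linarith) hcon
      linarith
    exact lt_of_ff hx.symm (lt_of_lt_of_le g7 hf)
  refine ⟨?_, ?_⟩
  · intro c d hcd z hz hx
    rcases gate_edge h hc hb h1 h2 hcd hz hx with ⟨hci, hdi⟩ | ⟨hdi, hci⟩
    · exact key c d hcd z hz hx hci hdi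
    · exact key d c hcd.symm z (by rw [segment_symm]; exact hz) hx hdi hci
  · intro c hcx
    rcases le_or_gt (ℓ c) i with hci | hci
    · exact absurd hcx (sep_le hc hb h1 hci).ne
    · exact absurd hcx (sep_gt hc hb h2 hci).ne'

/-- non-edges between adjacent levels -/
theorem crit_adj (h : IsLev G ℓ r) (hc : Coord G ℓ r U W K) [Finite V] (u v : V)
    (huv : ℓ v = ℓ u + 1) (hn : ¬ G.Adj u v) :
    ∀ᶠ δ in 𝓝[>] (0 : ℝ), ∃ m ∈ segment ℝ (pt ℓ U W δ u) (pt ℓ U W δ v),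
      Low G (pt ℓ U W δ) m ∨ Upp G (pt ℓ U W δ) m := by
  have hK := hc.K1 (ℓ v)
  have hK' : 0 < 1 + K (ℓ v) := by linarith
  have e1 : (ℓ v : ℝ) = ℓ u + 1 := by rw [huv]; push_cast; ring
  have ep := eps_pos hc (ℓ u + 1)
  have el := eps_lt hc (ℓ u + 1)
  rcases hc.non u v huv hn with hlt | hlt
  · have := ev_pos (g := fun δ => (((ℓ u : ℝ) + 1 / (1 + K (ℓ v))) - (pt ℓ U W δ u).1) * W v -
        ((pt ℓ U W δ v).1 - ((ℓ u : ℝ) + 1 / (1 + K (ℓ v)))) * U u)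
        (by unfold pt; fun_prop) (by
          have e2 : (((ℓ u : ℝ) + 1 / (1 + K (ℓ v))) - (pt ℓ U W 0 u).1) * W v -
            ((pt ℓ U W 0 v).1 - ((ℓ u : ℝ) + 1 / (1 + K (ℓ v)))) * U u =
            (W v - K (ℓ v) * U u) / (1 + K (ℓ v)) := by
            simp only [pt, e1]
            field_simp
            ring
          simp only [e2]
          apply div_pos _ hK'
          linarith)
    filter_upwards [this, basic_eventually hc] with δ hδ hb
    rw [huv] at hδ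
    set x := (ℓ u : ℝ) + 1 / (1 + K (ℓ u + 1)) with hx
    have h1 : (pt ℓ U W δ u).1 < x := sep_le hc hb (by rw [hx]; linarith) le_rfl
    have h2 : x < (pt ℓ U W δ v).1 := sep_gt hc hb (i := ℓ u) (by rw [hx]; linarith) (by omega)
    obtain ⟨m, hm, hmx⟩ := exists_seg (h1.trans h2) h1.le h2.le
    refine ⟨m, hm, Or.inl (gate_low h hc hb (i := ℓ u) hmx ?_)⟩
    have g2 := seg_ff hm (ℓ u)
    rw [ff_pt, ff_pt' ℓ U W δ v (ℓ u) e1, hmx] at g2
    by_contra hcon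
    push Not at hcon
    have := mul_pos (show (0 : ℝ) < (pt ℓ U W δ v).1 - (pt ℓ U W δ u).1 by linarith) hcon
    have := mul_pos hb.pos hδ
    linarith
  · have := ev_pos (g := fun δ => ((pt ℓ U W δ v).1 - ((ℓ v : ℝ) - 1 / (1 + K (ℓ v)))) * U u -
        (((ℓ v : ℝ) - 1 / (1 + K (ℓ v))) - (pt ℓ U W δ u).1) * W v)
        (by unfold pt; fun_prop) (by
          have e2 : ((pt ℓ U W 0 v).1 - ((ℓ v : ℝ) - 1 / (1 + K (ℓ v)))) * U u -
            (((ℓ v : ℝ) - 1 / (1 + K (ℓ v))) - (pt ℓ U W 0 u).1) * W v =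
            (U u - K (ℓ v) * W v) / (1 + K (ℓ v)) := by
            simp only [pt, e1]
            field_simp
            ring
          simp only [e2]
          apply div_pos _ hK'
          linarith)
    filter_upwards [this, basic_eventually hc] with δ hδ hb
    rw [e1, huv] at hδ
    set x := (ℓ u : ℝ) + 1 - 1 / (1 + K (ℓ u + 1)) with hx
    have h1 : (pt ℓ U W δ u).1 < x := sep_le hc hb (by rw [hx]; linarith) le_rfl
    have h2 : x < (pt ℓ U W δ v).1 := sep_gt hc hb (i := ℓ u) le_rfl (by omega)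
    obtain ⟨m, hm, hmx⟩ := exists_seg (h1.trans h2) h1.le h2.le
    refine ⟨m, hm, Or.inr (gate_upp h hc hb (i := ℓ u) hmx ?_)⟩
    have g2 := seg_ff hm (ℓ u)
    rw [ff_pt, ff_pt' ℓ U W δ v (ℓ u) e1, hmx] at g2
    by_contra hcon
    push Not at hcon
    have := mul_pos_of_neg_of_neg (show (pt ℓ U W δ u).1 - (pt ℓ U W δ v).1 < 0 by linarith) hcon
    have := mul_pos hb.pos hδ
    linarith

/-- non-edges between far levels -/
theorem crit_far (h : IsLev G ℓ r) (hc : Coord G ℓ r U W K) [Finite V] (u v : V)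
    (huv : ℓ u + 2 ≤ ℓ v) :
    ∀ᶠ δ in 𝓝[>] (0 : ℝ), ∃ m ∈ segment ℝ (pt ℓ U W δ u) (pt ℓ U W δ v),
      Low G (pt ℓ U W δ) m ∨ Upp G (pt ℓ U W δ) m := by
  have ep := eps_pos hc (ℓ u + 1)
  have el := eps_lt hc (ℓ u + 1)
  have hk : (ℓ u : ℝ) + 2 ≤ ℓ v := by exact_mod_cast huv
  set x := (ℓ u : ℝ) + 1 - 1 / (1 + K (ℓ u + 1)) with hx
  have := ev_pos (g := fun δ => ((pt ℓ U W δ v).1 - x) * ff (ℓ u) (pt ℓ U W δ u) +
      (x - (pt ℓ U W δ u).1) * ff (ℓ u) (pt ℓ U W δ v))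
      (by unfold ff pt; fun_prop) (by
        have e2 : ((pt ℓ U W 0 v).1 - x) * ff (ℓ u) (pt ℓ U W 0 u) +
          (x - (pt ℓ U W 0 u).1) * ff (ℓ u) (pt ℓ U W 0 v) =
          (x - ℓ u) * (((ℓ v : ℝ) - ℓ u) * ((ℓ v : ℝ) - ℓ u - 1)) := by
          simp only [pt, ff]
          ring
        simp only [e2]
        apply mul_pos
        · rw [hx]; linarith
        · apply mul_pos <;> linarith)
  filter_upwards [this, basic_eventually hc] with δ hδ hb
  have h1 : (pt ℓ U W δ u).1 < x := sep_le hc hb (by rw [hx]; linarith) le_rfl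
  have h2 : x < (pt ℓ U W δ v).1 := sep_gt hc hb (i := ℓ u) le_rfl (by omega)
  obtain ⟨m, hm, hmx⟩ := exists_seg (h1.trans h2) h1.le h2.le
  refine ⟨m, hm, Or.inr (gate_upp h hc hb (i := ℓ u) hmx ?_)⟩
  have g2 := seg_ff hm (ℓ u)
  rw [hmx] at g2
  by_contra hcon
  push Not at hcon
  have := mul_pos_of_neg_of_neg (show (pt ℓ U W δ u).1 - (pt ℓ U W δ v).1 < 0 by linarith) hcon
  linarith

end

end Pool.Agent.Helper1.Lev
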