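import Mathlib
import Pool.Agent.Helper1.Lev.Gate

set_option autoImplicit false

/-!
Blocking of the non-edges inside one level.
-/

namespace Pool.Agent.Helper1.Lev

open Filter Topology

section

variable {V : Type} {G : SimpleGraph V} {ℓ r : V → ℕ} {U W : V → ℝ} {K : ℕ → ℝ} {δ : ℝ}

theorem sc_lt (hc : Coord G ℓ r U W K) {u v : V} (h1 : ℓ u = ℓ v) (h2 : r u < r v) :
    sc U W v < sc U W u := by
  have e1 := hc.Um u v h1 h2
  have e2 := hc.Wm u v h1 h2
  simp only [sc]; linarith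

theorem sc_le (h : IsLev G ℓ r) (hc : Coord G ℓ r U W K) {u v : V} (h1 : ℓ u = ℓ v)
    (h2 : r u ≤ r v) : sc U W v ≤ sc U W u := by
  rcases eq_or_lt_of_le h2 with h3 | h3
  · rw [h.inj u v h1 h3]
  · exact (sc_lt hc h1 h3).le

theorem U_le (h : IsLev G ℓ r) (hc : Coord G ℓ r U W K) {u v : V} (h1 : ℓ u = ℓ v)
    (h2 : r u ≤ r v) : U u ≤ U v := by
  rcases eq_or_lt_of_le h2 with h3 | h3
  · rw [h.inj u v h1 h3]
  · exact (hc.Um u v h1 h3).le

theorem crit_same (h : IsLev G ℓ r) (hc : Coord G ℓ r U W K) [Finite V] (a b : V)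
    (hab : ℓ a = ℓ b) (hr : r a < r b) (hn : ¬ G.Adj a b) :
    ∀ᶠ δ in 𝓝[>] (0 : ℝ), ∃ m ∈ segment ℝ (pt ℓ U W δ a) (pt ℓ U W δ b),
      Low G (pt ℓ U W δ) m ∨ Upp G (pt ℓ U W δ) m := by
  have hsab := sc_lt hc hab hr
  have hUab := hc.Um a b hab hr
  -- choice of the point
  obtain ⟨ε, hε0, hε1, hU, hw'⟩ := hc.conc a b hab hr
  set sm := (1 - ε) * sc U W a + ε * sc U W b with hsm
  set um := (1 - ε) * U a + ε * U b with hum
  set wm := (1 - ε) * W a + ε * W b with hwm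
  have hua0 : 0 < (1 - ε) * U a := mul_pos (by linarith) (hc.U0 a)
  have hub0 : 0 < ε * U b := mul_pos hε0 (hc.U0 b)
  have hwa0 : 0 < (1 - ε) * W a := mul_pos (by linarith) (hc.W0 a)
  have hsmuw : sm = -(um + wm) / 2 := by
    rw [hsm, hum, hwm]; simp only [sc]; ring
  have hs : ∀ c, ℓ c = ℓ b → r c < r b → sm < sc U W c := by
    intro c h1 h2
    have := hw' c h1 h2
    rw [hsmuw]
    simp only [sc]
    linarith
  have hw : ∀ c, ℓ c = ℓ b → r c < r b → W c < wm := by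
    intro c h1 h2
    have := hw' c h1 h2
    have := hc.U0 c
    linarith
  have hsbm : sc U W b < sm := by
    rw [hsm]; nlinarith
  have humb : um < U b := hU b rfl hr
  -- the eventual condition
  have hev : ∀ᶠ δ in 𝓝[>] (0 : ℝ), ∀ t : V × V, ℓ t.1 = ℓ b → ℓ t.2 = ℓ b + 1 → r b ≤ r t.1 →
      0 < ((pt ℓ U W δ t.2).1 - (ℓ b + δ * sm)) * U t.1 -
        ((ℓ b + δ * sm) - (pt ℓ U W δ t.1).1) * W t.2 -
        ((pt ℓ U W δ t.2).1 - (pt ℓ U W δ t.1).1) * um := by
    rw [eventually_all]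
    rintro ⟨c, d⟩
    by_cases hcc : ℓ c = ℓ b ∧ ℓ d = ℓ b + 1 ∧ r b ≤ r c
    · obtain ⟨h1, h2, h3⟩ := hcc
      have hU := U_le h hc h1.symm h3
      have e1 : (ℓ c : ℝ) = ℓ b := by rw [h1]
      have e2 : (ℓ d : ℝ) = ℓ b + 1 := by rw [h2]; push_cast; ring
      filter_upwards [ev_pos (g := fun δ => ((pt ℓ U W δ d).1 - (ℓ b + δ * sm)) * U c -
        ((ℓ b + δ * sm) - (pt ℓ U W δ c).1) * W d -
        ((pt ℓ U W δ d).1 - (pt ℓ U W δ c).1) * um) (by unfold pt; fun_prop) (by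
          simp only [pt, e1, e2]
          ring_nf
          linarith)] with δ hδ
      intro _ _ _
      exact hδ
    · filter_upwards with δ
      intro h1 h2 h3
      exact absurd ⟨h1, h2, h3⟩ hcc
  filter_upwards [hev, basic_eventually hc] with δ hδ hb
  have hpos := hb.pos
  refine ⟨(1 - ε) • pt ℓ U W δ a + ε • pt ℓ U W δ b,
    ⟨1 - ε, ε, by linarith, hε0.le, by ring, rfl⟩, Or.inl ?_⟩
  set m := (1 - ε) • pt ℓ U W δ a + ε • pt ℓ U W δ b with hm
  have hmseg : m ∈ segment ℝ (pt ℓ U W δ a) (pt ℓ U W δ b) :=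
    ⟨1 - ε, ε, by linarith, hε0.le, by ring, rfl⟩
  have hm1 : m.1 = ℓ b + δ * sm := by
    simp only [hm, Prod.fst_add, Prod.smul_fst, smul_eq_mul, pt, hab, hsm]
    ring
  have hfm : ff (ℓ b) m = δ * um := by
    have : ff (ℓ b) m = (1 - ε) * ff (ℓ b) (pt ℓ U W δ a) + ε * ff (ℓ b) (pt ℓ U W δ b) := by
      simp only [hm, ff, Prod.fst_add, Prod.smul_fst, smul_eq_mul, Prod.snd_add, Prod.smul_snd]
      ring
    rw [this, ff_pt, ← hab, ff_pt, hum]
    ring
  have hfm' : ∀ i : ℝ, (ℓ b : ℝ) = i + 1 → ff i m = -(δ * wm) := by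
    intro i hi
    have : ff i m = (1 - ε) * ff i (pt ℓ U W δ a) + ε * ff i (pt ℓ U W δ b) := by
      simp only [hm, ff, Prod.fst_add, Prod.smul_fst, smul_eq_mul, Prod.snd_add, Prod.smul_snd]
      ring
    rw [this, ff_pt' ℓ U W δ b i hi, ff_pt' ℓ U W δ a i (by rw [hab]; exact hi), hwm]
    ring
  have hmlt : m.1 < ℓ b := seg_lt hmseg (by have := x_lt hc hb a; rwa [hab] at this) (x_lt hc hb b)
  have hmgt : (ℓ b : ℝ) - 1 / 2 < m.1 :=
    seg_gt hmseg (by have := x_gt hc hb a; rwa [hab] at this) (x_gt hc hb b)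
  -- points of lower / higher levels
  have hlo : ∀ c, ℓ c < ℓ b → (pt ℓ U W δ c).1 < m.1 := by
    intro c hcb
    have e1 := x_lt hc hb c
    have e2 : (ℓ c : ℝ) + 1 ≤ ℓ b := by exact_mod_cast hcb
    linarith
  have hhi : ∀ c, ℓ b < ℓ c → m.1 < (pt ℓ U W δ c).1 := by
    intro c hcb
    have e1 := x_gt hc hb c
    have e2 : (ℓ b : ℝ) + 1 ≤ ℓ c := by exact_mod_cast hcb
    linarith
  -- same level
  have hle1 : ∀ c, ℓ c = ℓ b → (pt ℓ U W δ c).1 ≤ m.1 → r b ≤ r c := by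
    intro c hcb hx
    by_contra hcon
    push Not at hcon
    have := hs c hcb hcon
    rw [hm1, pt_fst, hcb] at hx
    have := mul_lt_mul_of_pos_left this hpos
    linarith
  have hle2 : ∀ c, ℓ c = ℓ b → m.1 ≤ (pt ℓ U W δ c).1 → r c < r b := by
    intro c hcb hx
    by_contra hcon
    push Not at hcon
    have := lt_of_le_of_lt (sc_le h hc hcb.symm hcon) hsbm
    rw [hm1, pt_fst, hcb] at hx
    have := mul_lt_mul_of_pos_left this hpos
    linarith
  -- edges between different levels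
  have key1 : ∀ c d, G.Adj c d → ∀ z ∈ segment ℝ (pt ℓ U W δ c) (pt ℓ U W δ d), z.1 = m.1 →
      ℓ d = ℓ c + 1 → m.2 < z.2 := by
    intro c d hcd z hz hx hdc
    have hxcd : (pt ℓ U W δ c).1 < (pt ℓ U W δ d).1 := by
      have e1 := x_lt hc hb c
      have e2 := x_gt hc hb d
      rw [hdc] at e2
      push_cast at e2
      linarith
    have hzb := seg_x hz (A := (pt ℓ U W δ c).1) (B := (pt ℓ U W δ d).1) le_rfl hxcd.le hxcd.le
      le_rfl
    rcases lt_trichotomy (ℓ d) (ℓ b) with h1 | h1 | h1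
    · exact absurd hx (seg_lt hz (hlo c (by omega)) (hlo d h1)).ne
    · have hrd := hle2 d h1 (by rw [← hx]; exact hzb.2)
      have hWd := hw d h1 hrd
      have g2 := seg_ff hz (ℓ c)
      have e1 : (ℓ d : ℝ) = ℓ c + 1 := by rw [hdc]; push_cast; ring
      rw [ff_pt, ff_pt' ℓ U W δ d (ℓ c) e1] at g2
      have g3 := hfm' (ℓ c) (by rw [← h1]; exact e1)
      refine lt_of_ff (i := ℓ c) hx ?_
      rw [g3]
      by_contra hcon
      push Not at hcon
      have p1 : 0 < (pt ℓ U W δ d).1 - (pt ℓ U W δ c).1 := by linarith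
      have p2 : 0 ≤ (pt ℓ U W δ d).1 - z.1 := by linarith [hzb.2]
      have p3 := mul_le_mul_of_nonneg_left hcon p1.le
      have p4 : 0 ≤ ((pt ℓ U W δ d).1 - z.1) * (δ * (U c + W d)) :=
        mul_nonneg p2 (mul_nonneg hpos.le (by linarith [hc.U0 c, hc.W0 d]))
      have p5 : 0 < ((pt ℓ U W δ d).1 - (pt ℓ U W δ c).1) * (δ * (wm - W d)) :=
        mul_pos p1 (mul_pos hpos (by linarith))
      rw [g2] at p3
      linarith
    · rcases eq_or_lt_of_le (show ℓ b ≤ ℓ c by omega) with h2 | h2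
      · have hrc := hle1 c h2.symm (by rw [← hx]; exact hzb.1)
        have g1 := hδ (c, d) h2.symm (by simp only; omega) hrc
        simp only at g1
        rw [← hm1, ← hx] at g1
        have g2 := seg_ff hz (ℓ c)
        have e1 : (ℓ d : ℝ) = ℓ c + 1 := by rw [hdc]; push_cast; ring
        rw [ff_pt, ff_pt' ℓ U W δ d (ℓ c) e1] at g2
        refine lt_of_ff (i := ℓ c) hx ?_
        rw [← h2, hfm, h2]
        by_contra hcon
        push Not at hcon
        have p1 : 0 < (pt ℓ U W δ d).1 - (pt ℓ U W δ c).1 := by linarith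
        have p3 := mul_le_mul_of_nonneg_left hcon p1.le
        have p4 := mul_pos hpos g1
        rw [g2] at p3
        linarith
      · exact absurd hx (seg_gt hz (hhi c h2) (hhi d h1)).ne'
  -- edges inside a level
  have key2 : ∀ c d, G.Adj c d → ∀ z ∈ segment ℝ (pt ℓ U W δ c) (pt ℓ U W δ d), z.1 = m.1 →
      ℓ c = ℓ d → r c < r d → m.2 < z.2 := by
    intro c d hcd z hz hx hlcd hrcd
    rcases lt_trichotomy (ℓ c) (ℓ b) with h1 | h1 | h1
    · exact absurd hx (seg_lt hz (hlo c h1) (hlo d (by omega))).ne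
    · have hsdc := sc_lt hc hlcd hrcd
      have hxdc : (pt ℓ U W δ d).1 ≤ (pt ℓ U W δ c).1 := by
        rw [pt_fst, pt_fst, hlcd]
        have := mul_lt_mul_of_pos_left hsdc hpos
        linarith
      have hzb := seg_x hz (A := (pt ℓ U W δ d).1) (B := (pt ℓ U W δ c).1) hxdc le_rfl le_rfl hxdc
      have hrc := hle2 c h1 (by rw [← hx]; exact hzb.2)
      have hrd := hle1 d (by omega) (by rw [← hx]; exact hzb.1)
      have hac : r a < r c := by
        by_contra hcon
        push Not at hcon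
        exact hn (h.same c d a b hcd hlcd (by omega) (by omega) hcon hr hrd)
      have hUc := hU c h1 hac
      have hUcd := hc.Um c d hlcd hrcd
      refine lt_of_ff (i := ℓ b) hx ?_
      rw [hfm]
      have g3 : ff (ℓ b : ℝ) (pt ℓ U W δ c) = δ * U c := by rw [← h1]; exact ff_pt ℓ U W δ c
      have g4 : ff (ℓ b : ℝ) (pt ℓ U W δ d) = δ * U d := by
        rw [← h1, hlcd]; exact ff_pt ℓ U W δ d
      refine lt_of_lt_of_le (mul_lt_mul_of_pos_left hUc hpos) (ff_le hz ?_ ?_)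
      · rw [g3]
      · rw [g4]
        exact (mul_lt_mul_of_pos_left hUcd hpos).le
    · exact absurd hx (seg_gt hz (hhi c h1) (hhi d (by omega))).ne'
  refine ⟨?_, ?_⟩
  · intro c d hcd z hz hx
    have n1 := h.near c d hcd
    have n2 := h.near d c hcd.symm
    have hz' : z ∈ segment ℝ (pt ℓ U W δ d) (pt ℓ U W δ c) := by rw [segment_symm]; exact hz
    rcases lt_trichotomy (ℓ c) (ℓ d) with h1 | h1 | h1
    · exact key1 c d hcd z hz hx (by omega)
    · rcases lt_trichotomy (r c) (r d) with h2 | h2 | h2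
      · exact key2 c d hcd z hz hx h1 h2
      · exact absurd (h.inj c d h1 h2) hcd.ne
      · exact key2 d c hcd.symm z hz' hx h1.symm h2
    · exact key1 d c hcd.symm z hz' hx (by omega)
  · intro c hx
    rcases lt_trichotomy (ℓ c) (ℓ b) with h1 | h1 | h1
    · exact absurd hx (hlo c h1).ne
    · have e1 := hle1 c h1 hx.le
      have e2 := hle2 c h1 hx.ge
      omega
    · exact absurd hx (hhi c h1).ne'

end

end Pool.Agent.Helper1.Lev
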