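import Mathlib
import Pool.Agent.Helper1.Lev.Same

set_option autoImplicit false

/-!
One obstacle for leveled graphs with interval fans.
-/

namespace Pool.Agent.Helper1.Lev

open Filter Topology

theorem leveled_one_obstacle {V : Type} [Fintype V] (G : SimpleGraph V) (ℓ r : V → ℕ)
    (h : IsLev G ℓ r) :
    ∃ (q : V → ℝ × ℝ) (O : Set (ℝ × ℝ)), Function.Injective q ∧ IsPreconnected O ∧
      (∀ v, q v ∉ O) ∧
      ∀ u v, u ≠ v → (G.Adj u v ↔ Disjoint (segment ℝ (q u) (q v)) O) := by
  obtain ⟨U, W, K, k1, k2, k3, k4, k5, k6, k7, k8⟩ := exists_coord h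
  have hc : Coord G ℓ r U W K := ⟨k1, k2, k3, k4, k5, k6, k7, k8⟩
  have hev : ∀ᶠ δ in 𝓝[>] (0 : ℝ), ∀ t : V × V, t.1 ≠ t.2 → ¬ G.Adj t.1 t.2 →
      ∃ m ∈ segment ℝ (pt ℓ U W δ t.1) (pt ℓ U W δ t.2),
        Low G (pt ℓ U W δ) m ∨ Upp G (pt ℓ U W δ) m := by
    rw [eventually_all]
    rintro ⟨u, v⟩
    by_cases hh : u ≠ v ∧ ¬ G.Adj u v
    · obtain ⟨huv, hn⟩ := hh
      have hn' : ¬ G.Adj v u := fun e => hn e.symm
      rcases lt_trichotomy (ℓ u) (ℓ v) with h1 | h1 | h1
      · rcases eq_or_lt_of_le (show ℓ u + 1 ≤ ℓ v by omega) with h2 | h2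
        · filter_upwards [crit_adj h hc u v h2.symm hn] with δ hδ
          intro _ _
          exact hδ
        · filter_upwards [crit_far h hc u v h2] with δ hδ
          intro _ _
          exact hδ
      · rcases lt_trichotomy (r u) (r v) with h2 | h2 | h2
        · filter_upwards [crit_same h hc u v h1 h2 hn] with δ hδ
          intro _ _
          exact hδ
        · exact absurd (h.inj u v h1 h2) huv
        · filter_upwards [crit_same h hc v u h1.symm h2 hn'] with δ hδ
          intro _ _
          rw [segment_symm]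
          exact hδ
      · rcases eq_or_lt_of_le (show ℓ v + 1 ≤ ℓ u by omega) with h2 | h2
        · filter_upwards [crit_adj h hc v u h2.symm hn'] with δ hδ
          intro _ _
          rw [segment_symm]
          exact hδ
        · filter_upwards [crit_far h hc v u h2] with δ hδ
          intro _ _
          rw [segment_symm]
          exact hδ
    · filter_upwards with δ
      intro h1 h2
      exact absurd ⟨h1, h2⟩ hh
  obtain ⟨δ, h1, hb⟩ := (hev.and (basic_eventually hc)).exists
  obtain ⟨O, hO1, hO2, hO3⟩ := obstacle_of_rays G (pt ℓ U W δ) (fun u v => h1 (u, v))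
  refine ⟨pt ℓ U W δ, O, ?_, hO1, hO2, hO3⟩
  intro u v huv
  have hx : (pt ℓ U W δ u).1 = (pt ℓ U W δ v).1 := by rw [huv]
  have hl : ℓ u = ℓ v := by
    have a1 := x_lt hc hb u
    have a2 := x_gt hc hb u
    have a3 := x_lt hc hb v
    have a4 := x_gt hc hb v
    by_contra hne
    rcases lt_or_gt_of_ne hne with h2 | h2
    · have : (ℓ u : ℝ) + 1 ≤ ℓ v := by exact_mod_cast h2
      linarith
    · have : (ℓ v : ℝ) + 1 ≤ ℓ u := by exact_mod_cast h2
      linarith
  rw [pt_fst, pt_fst, hl] at hx
  have hs : sc U W u = sc U W v := by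
    have := hb.pos
    have h3 : δ * sc U W u = δ * sc U W v := by linarith
    exact mul_left_cancel₀ this.ne' h3
  rcases lt_trichotomy (r u) (r v) with h2 | h2 | h2
  · have := sc_lt hc hl h2
    linarith
  · exact h.inj u v hl h2
  · have := sc_lt hc hl.symm h2
    linarith

end Pool.Agent.Helper1.Lev
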